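import Pool.Agent.ZRT.StmtsA

/-!
# ZRT squad (MP_33f2b9_gt), row XPO: the Rauch upper bound in polar form
-/

noncomputable section

open scoped ContDiff Topology RealInnerProductSpace
open Set MeasureTheory

namespace Pool.Agent.ZRT.H19

open Pool.Agent.RF Pool.Agent.MVS Pool.Agent.ZRT

theorem xpo (hxb1 : Xb1Statement) (hxfb : XfbStatement) (hxup : XupStatement) :
    XpoStatement := by
  intro G ex hG m hm u n hu hn hun r a b hr
  have hT := (hxb1 G ex hG.cyl hG.exp m hm).2.2.2.2.1 u r
  rw [hu] at hT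
  have hTJ := (hxfb G ex hG.cyl hG.exp m hm u n n r 1).2.2.2.2.2.2.2.2.1
  rw [hun, mul_zero] at hTJ
  have hJ := hxup G ex hG m hm u n hu r hr
  rw [hn, one_mul] at hJ
  have hx : ex (m, r • u) ∈ Om (Fin 5) := hG.exp.mem m hm _
  have hsym := hG.cyl.metric.symm _ hx (Jf ex m u n r) (Tf ex m u r)
  have hdec : dE ex m (r • u) (a • u + (r * b) • n) = a • Tf ex m u r + b • Jf ex m u n r := by
    unfold Jf Tf dE
    rw [map_add, map_smul, map_smul, map_smul, smul_smul, mul_comm b r]
  have hexp : G (ex (m, r • u)) (a • Tf ex m u r + b • Jf ex m u n r)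
      (a • Tf ex m u r + b • Jf ex m u n r) =
      a * (a * G (ex (m, r • u)) (Tf ex m u r) (Tf ex m u r) +
        b * G (ex (m, r • u)) (Tf ex m u r) (Jf ex m u n r)) +
      b * (a * G (ex (m, r • u)) (Jf ex m u n r) (Tf ex m u r) +
        b * G (ex (m, r • u)) (Jf ex m u n r) (Jf ex m u n r)) := by
    simp only [map_add, map_smul, add_apply, smul_apply, smul_eq_mul]
    ring
  rw [hdec, hexp, hsym, hTJ, hT]
  have h1 := mul_le_mul_of_nonneg_left hJ (sq_nonneg b)
  nlinarith

end Pool.Agent.ZRT.H19
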